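import Mathlib
import Pool.Agent.H985.Par.StmPar
import Pool.Agent.H604.FC.Asm4

/-!
# Task ASMU (helper154, for helper985): full Chowla in characteristic two, uniformly in the shifts
-/

set_option autoImplicit false

namespace Pool.Agent.H154.Par

open Polynomial
open Pool.Agent.H985.Par
open Pool.Agent.H985.Chow (mob MD)
open Pool.Agent.H985.KP (mobg PA)
open Pool.Agent.H604.FC.Asm4
open Pool.Agent.H985.Chow.Asm

section

variable {K : Type} [Field K] [Fintype K]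

/-- the mass of the set of divisors -/
lemma mass_le (F : K[X]) (hF : F ≠ 0) (n : ℕ) : mass {P : K[X] | P ∣ F} n ≤ F.natDegree := by
  classical
  have hq1 : (1 : ℝ) ≤ Fintype.card K := by exact_mod_cast Fintype.card_pos
  have hfin : ({P : K[X] | P ∣ F} ∩ {P : K[X] | P.Monic ∧ Irreducible P ∧ P.natDegree ≤ n}).Finite :=
    (PA_finite F hF).subset (fun P hP => ⟨hP.2.1, hP.2.2.1, hP.1⟩)
  rw [mass, finsum_mem_eq_finite_toFinset_sum _ hfin]
  have h1 : ∏ P ∈ hfin.toFinset, P ∣ F := by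
    apply Finset.prod_dvd_of_coprime
    · intro P hP P' hP' hne
      simp only [Set.Finite.coe_toFinset] at hP hP'
      exact coprime_of_ne ⟨hP.2.1, hP.2.2.1⟩ ⟨hP'.2.1, hP'.2.2.1⟩ hne
    · intro P hP
      rw [Set.Finite.mem_toFinset] at hP
      exact hP.1
  have h2 : ∑ P ∈ hfin.toFinset, P.natDegree ≤ F.natDegree := by
    rw [← natDegree_prod_of_monic _ _ (fun P hP => by
      rw [Set.Finite.mem_toFinset] at hP
      exact hP.2.1)]
    exact natDegree_le_of_dvd h1 hF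
  calc ∑ P ∈ hfin.toFinset, (P.natDegree : ℝ) / (Fintype.card K : ℝ) ^ P.natDegree
      ≤ ∑ P ∈ hfin.toFinset, (P.natDegree : ℝ) :=
        Finset.sum_le_sum (fun P _ => div_le_self (Nat.cast_nonneg _) (one_le_pow₀ hq1))
    _ ≤ F.natDegree := by exact_mod_cast h2

lemma Fb_finite [CharP K 2] (n : ℕ) : (Fb K n).Finite := by
  have h : Fb K n ⊆ Set.range (fun u : degreeLT K (n + 1) => (u : K[X])) := by
    rintro b ⟨a, -, hd⟩
    refine ⟨⟨b, ?_⟩, rfl⟩
    rw [mem_deg]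
    intro i hi
    have h1 := coeff_G_odd a b i
    rw [G, coeff_eq_zero_of_natDegree_lt (by omega)] at h1
    exact pow_eq_zero_iff (two_ne_zero) |>.1 h1.symm
  exact (Set.finite_range _).subset h

omit [Fintype K] in
lemma Fb_mem [CharP K 2] (n : ℕ) (v' : K[X]) (hv' : v' ∈ degreeLT K (n / 2)) :
    tb K n + v' ∈ Fb K n :=
  ⟨ta K n + 0, G_mem n 0 v' (zero_mem _) hv'⟩

/-- the fibres over the typical `b` -/
lemma goodU [CharP K 2] {k : ℕ} (s t g : Fin k → K[X]) (Q E b : K[X]) (w : K[X] → ℝ)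
    (κ κ' c ε : ℝ) (n : ℕ) (hκ : 0 < κ) (hκ8 : κ ≤ 1 / 8) (hκ' : κ' ≤ κ) (hn : 1 ≤ κ * n)
    (hQ : Q ≠ 0) (hE : E.Monic) (hQd : (Q.natDegree : ℝ) ≤ κ' * n)
    (hEd : (E.natDegree : ℝ) ≤ κ * n)
    (hw : ∀ f, |w f| ≤ 1)
    (hwi : ∀ f, ∃ χ : AddChar K[X] ℝ, ∀ u, (2 * (Q * u).natDegree : ℝ) ≤ (1 - κ') * n →
      w (f + (Q * u) ^ 2) = w f * χ u)
    (hq : (Fintype.card K : ℝ) ^ (-(c * n)) ≤ ε)
    (hb : ∀ v ∈ degreeLT K ((n + 1) / 2), G (ta K n + v) b ∈ MD K n)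
    (hwin : ∀ (L : ℕ) (a : K[X]) (χ : AddChar K[X] ℝ),
      (a ^ 2 + X * b ^ 2).Monic → (a ^ 2 + X * b ^ 2).natDegree = n →
      (1 - 3 * κ) * n ≤ 2 * (((E * Q).natDegree : ℝ) + L) →
      2 * (((E * Q).natDegree : ℝ) + L) ≤ (1 - κ) * n →
      |∑ᶠ u ∈ {u : K[X] | u.degree < (L : WithBot ℕ)}, χ u * ∏ i,
        (mobg (g i) ((a + s i + E * Q * u) ^ 2 + X * (b + t i) ^ 2) : ℝ)| ≤
          (Fintype.card K : ℝ) ^ ((L : ℝ) - c * n)) :
    |∑ v : degreeLT K ((n + 1) / 2), fs (fun i => G (s i) (t i)) g w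
      (G (ta K n + (v : K[X])) b)| ≤ (Fintype.card K : ℝ) ^ ((n + 1) / 2) * ε := by
  classical
  have hq1 : (1 : ℝ) < Fintype.card K := by exact_mod_cast Fintype.one_lt_card
  have hq0 : (0 : ℝ) < Fintype.card K := by linarith
  have hn0 : (0 : ℝ) ≤ n := Nat.cast_nonneg n
  obtain ⟨M, hM⟩ : ∃ M, M = E * Q := ⟨_, rfl⟩
  have hM0 : M ≠ 0 := by rw [hM]; exact mul_ne_zero hE.ne_zero hQ
  have hMd : M.natDegree = E.natDegree + Q.natDegree := by
    rw [hM, natDegree_mul hE.ne_zero hQ]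
  have hMd' : (M.natDegree : ℝ) ≤ 2 * κ * n := by
    rw [hMd]
    push_cast
    nlinarith
  obtain ⟨L', hL'⟩ : ∃ L', L' = ⌊(1 - κ) * n / 2⌋₊ := ⟨_, rfl⟩
  have hx0 : 0 ≤ (1 - κ) * n / 2 := by
    have : 0 ≤ 1 - κ := by linarith
    positivity
  have hL1 : (L' : ℝ) ≤ (1 - κ) * n / 2 := by
    rw [hL']
    exact Nat.floor_le hx0
  have hL2 : (1 - κ) * n / 2 < L' + 1 := by
    rw [hL']
    exact Nat.lt_floor_add_one _
  have hML : M.natDegree ≤ L' := by
    rw [hL']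
    apply Nat.le_floor
    nlinarith
  obtain ⟨L, hL⟩ : ∃ L, L = L' - M.natDegree := ⟨_, rfl⟩
  have hLs : M.natDegree + L = L' := by omega
  have hLs' : (M.natDegree : ℝ) + L = L' := by exact_mod_cast hLs
  have hφ : ∀ u ∈ degreeLT K L, M * u ∈ degreeLT K ((n + 1) / 2) := by
    intro u hu
    apply mem_of_natDegree_lt
    by_cases hu0 : u = 0
    · left
      rw [hu0, mul_zero]
    · right
      have h1 := natDegree_lt_of_mem hu hu0
      rw [natDegree_mul hM0 hu0]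
      have h2 : (2 * L' : ℝ) ≤ n := by nlinarith
      have h3 : 2 * L' ≤ n := by exact_mod_cast h2
      omega
  refine avg ((n + 1) / 2) L M hφ (fun x => fs (fun i => G (s i) (t i)) g w
    (G (ta K n + x) b)) ε ?_
  intro v hv
  obtain ⟨a, ha⟩ : ∃ a, a = ta K n + v := ⟨_, rfl⟩
  have hmem := hb v hv
  rw [← ha] at hmem
  obtain ⟨χ, hχ⟩ := hwi (G a b)
  obtain ⟨χ', hχ'⟩ : ∃ χ' : AddChar K[X] ℝ, ∀ u, χ' u = χ (E * u) :=
    ⟨χ.compAddMonoidHom (AddMonoidHom.mulLeft E), fun u => rfl⟩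
  have hwm := hwin L a χ' hmem.1 hmem.2 (by
    rw [← hM, hLs']
    nlinarith) (by
    rw [← hM, hLs']
    nlinarith)
  rw [window_finsum, ← hM] at hwm
  have hterm : ∀ u : degreeLT K L,
      fs (fun i => G (s i) (t i)) g w (G (ta K n + (v + M * (u : K[X]))) b) =
        w (G a b) * (χ' (u : K[X]) * ∏ i,
      (mobg (g i) ((a + s i + M * (u : K[X])) ^ 2 + X * (b + t i) ^ 2) : ℝ)) := by
    intro u
    rw [fs, ← add_assoc, ← ha]
    have h1 : G (a + M * (u : K[X])) b = G a b + (Q * (E * (u : K[X]))) ^ 2 := by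
      rw [G, G, CharTwo.add_sq, hM]
      ring
    have h2 : w (G (a + M * (u : K[X])) b) = w (G a b) * χ' (u : K[X]) := by
      rw [h1, hχ, hχ']
      have h3 : Q * (E * (u : K[X])) = M * u := by rw [hM]; ring
      rw [h3]
      by_cases hu0 : (u : K[X]) = 0
      · rw [hu0, mul_zero, natDegree_zero]
        push_cast
        nlinarith
      · have h4 := natDegree_lt_of_mem u.2 hu0
        rw [natDegree_mul hM0 hu0]
        have h5 : ((M.natDegree + (u : K[X]).natDegree : ℕ) : ℝ) + 1 ≤ L' := by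
          exact_mod_cast (by omega : M.natDegree + (u : K[X]).natDegree + 1 ≤ L')
        nlinarith
    rw [h2, mul_assoc]
    congr 1
    congr 1
    apply Finset.prod_congr rfl
    intro i _
    rw [← G_add, add_right_comm, G]
  rw [Finset.sum_congr rfl (fun u _ => hterm u), ← Finset.mul_sum, abs_mul]
  have hfin : (Fintype.card K : ℝ) ^ ((L : ℝ) - c * n) ≤ (Fintype.card K : ℝ) ^ L * ε := by
    rw [sub_eq_add_neg, Real.rpow_add hq0, Real.rpow_natCast]
    exact mul_le_mul_of_nonneg_left hq (by positivity)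
  calc |w (G a b)| * |∑ u : degreeLT K L, χ' (u : K[X]) * ∏ i,
      (mobg (g i) ((a + s i + M * (u : K[X])) ^ 2 + X * (b + t i) ^ 2) : ℝ)|
      ≤ 1 * ((Fintype.card K : ℝ) ^ L * ε) :=
        mul_le_mul (hw _) (hwm.trans hfin) (abs_nonneg _) zero_le_one
    _ = _ := one_mul _

end

theorem asmU (h : S_fib) : S_fullU := by
  intro K _ _ _ k ε hk hε
  classical
  have hq1 : (1 : ℝ) < Fintype.card K := by exact_mod_cast Fintype.one_lt_card
  have hq0 : (0 : ℝ) < Fintype.card K := by linarith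
  obtain ⟨κ, θ, c, hκ, hκ8, hθ, hc, n₁, hn₁⟩ := h K k (ε / 2) hk (by linarith)
  have hk0 : (0 : ℝ) < k + 1 := by positivity
  obtain ⟨κ', hκ'⟩ : ∃ κ' : ℝ, κ' = min κ θ / (k + 1) := ⟨_, rfl⟩
  have hκ'0 : 0 < κ' := by rw [hκ']; exact div_pos (lt_min hκ hθ) hk0
  have hκ'1 : κ' * (k + 1) = min κ θ := by rw [hκ']; field_simp
  have hκ'2 : κ' ≤ κ := by
    have h1 : min κ θ ≤ κ := min_le_left _ _
    have h2 : (0 : ℝ) ≤ k := Nat.cast_nonneg k
    nlinarith
  have hρ1 : (Fintype.card K : ℝ) ^ (-c) < 1 := Real.rpow_lt_one_of_one_lt_of_neg hq1 (by linarith)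
  obtain ⟨n₂, hn₂⟩ := exists_pow_lt_of_lt_one (show (0 : ℝ) < ε / 2 by linarith) hρ1
  obtain ⟨n₃, hn₃⟩ := exists_nat_gt (1 / κ)
  refine ⟨κ', hκ'0, n₁ + n₂ + n₃, ?_⟩
  intro n hn α g Q hα hαd hg hQ hQd w hw hwi
  have hn0 : (0 : ℝ) ≤ n := Nat.cast_nonneg n
  have hκn : 1 ≤ κ * n := by
    have h1 : (n₃ : ℝ) ≤ n := by exact_mod_cast (by omega : n₃ ≤ n)
    have h2 : 1 / κ ≤ n := hn₃.le.trans h1
    rw [div_le_iff₀ hκ] at h2
    linarith
  have hqn : (Fintype.card K : ℝ) ^ (-(c * n)) ≤ ε / 2 := by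
    have h1 : (Fintype.card K : ℝ) ^ (-(c * n)) = ((Fintype.card K : ℝ) ^ (-c)) ^ n := by
      rw [← Real.rpow_natCast, ← Real.rpow_mul hq0.le]
      congr 1
      ring
    rw [h1]
    exact (pow_le_pow_of_le_one (by positivity) hρ1.le (by omega : n₂ ≤ n)).trans hn₂.le
  have hst : ∀ i, ∃ a b, G a b = α i := fun i => G_surj (α i)
  choose s t hst using hst
  have hinj : Function.Injective (fun i => (s i, t i)) := by
    intro i j hij
    apply hα
    simp only [Prod.mk.injEq] at hij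
    rw [← hst i, ← hst j, hij.1, hij.2]
  have hαe : α = fun i => G (s i) (t i) := by
    funext i
    rw [hst]
  obtain ⟨F, hF⟩ : ∃ F, F = Q * ∏ i, g i := ⟨_, rfl⟩
  have hg0 : ∏ i, g i ≠ 0 := Finset.prod_ne_zero_iff.2 (fun i _ => (hg i).1.ne_zero)
  have hF0 : F ≠ 0 := by rw [hF]; exact mul_ne_zero hQ hg0
  have hFd : (F.natDegree : ℝ) ≤ θ * n := by
    have h1 : F.natDegree = Q.natDegree + ∑ i, (g i).natDegree := by
      rw [hF, natDegree_mul hQ hg0, natDegree_prod_of_monic _ _ (fun i _ => (hg i).1)]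
    have h2 : (∑ i, ((g i).natDegree : ℝ)) ≤ ∑ _i : Fin k, κ' * n :=
      Finset.sum_le_sum (fun i _ => (hg i).2)
    rw [Finset.sum_const, Finset.card_univ, Fintype.card_fin, nsmul_eq_mul] at h2
    have h3 : (F.natDegree : ℝ) ≤ κ' * (k + 1) * n := by
      rw [h1]
      push_cast
      linarith
    rw [hκ'1] at h3
    have h4 : min κ θ * n ≤ θ * n := mul_le_mul_of_nonneg_right (min_le_right _ _) hn0
    linarith
  obtain ⟨Exc, hE1, hE2, hmain⟩ := hn₁ n (by omega) s t {P : K[X] | P ∣ F} hinj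
    (fun i => by
      have := hαd i
      rw [← hst i, G] at this
      exact this) ((mass_le F hF0 n).trans hFd)
  rw [hαe]
  change |∑ᶠ f ∈ MD K n, fs (fun i => G (s i) (t i)) g w f| ≤ _
  rw [sum_MD]
  obtain ⟨N, hN⟩ : ∃ N, N = (n + 1) / 2 := ⟨_, rfl⟩
  rw [← hN]
  have hqN : (0 : ℝ) < (Fintype.card K : ℝ) ^ N := pow_pos hq0 _
  obtain ⟨T, hT⟩ : ∃ T : degreeLT K (n / 2) → ℝ, T = fun v' : degreeLT K (n / 2) =>
    ∑ v : degreeLT K N, fs (fun i => G (s i) (t i)) g w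
      (G (ta K n + (v : K[X])) (tb K n + (v' : K[X]))) := ⟨_, rfl⟩
  have htriv : ∀ v', |T v'| ≤ (Fintype.card K : ℝ) ^ N := by
    intro v'
    rw [hT]
    refine (Finset.abs_sum_le_sum_abs _ _).trans ?_
    refine (Finset.sum_le_sum (fun v _ => abs_fs _ g w hw _)).trans ?_
    rw [Finset.sum_const, Finset.card_univ, card_deg, nsmul_eq_mul, mul_one]
    push_cast
    exact le_rfl
  have hgood : ∀ v' : degreeLT K (n / 2), tb K n + (v' : K[X]) ∉ Exc →
      |T v'| ≤ (Fintype.card K : ℝ) ^ N * (ε / 2) := by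
    intro v' hv'
    obtain ⟨E, hE, hEd, hRE, hwin⟩ := hmain (tb K n + (v' : K[X])) (Fb_mem n _ v'.2) hv'
    rw [hT, hN]
    refine goodU s t g Q E (tb K n + (v' : K[X])) w κ κ' c (ε / 2) n hκ hκ8 hκ'2 hκn hQ hE hQd hEd
      hw hwi hqn (fun v hv => G_mem n v _ hv v'.2) ?_
    intro L a χ h1 h2 h3 h4
    refine hwin (E * Q) g L a χ (mul_ne_zero hE.ne_zero hQ) (dvd_mul_right _ _) ?_ ?_ ?_ h1 h2 h3 h4
    · rw [natDegree_mul hE.ne_zero hQ]
      push_cast
      nlinarith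
    · intro P hP1 hP2 hP3
      by_cases hex : ∃ i, P ∣ tb K n + (v' : K[X]) + t i
      · rcases hP2.prime.dvd_or_dvd hP3 with h5 | h5
        · exact Or.inl h5
        · exact Or.inl (hRE P (by
            show P ∣ F
            rw [hF]
            exact h5.mul_right _) hP1 hP2 hex)
      · push Not at hex
        exact Or.inr hex
    · intro i
      refine ⟨(hg i).1, fun P _ _ hP => ?_⟩
      show P ∣ F
      rw [hF]
      exact (hP.trans (Finset.dvd_prod_of_mem g (Finset.mem_univ i))).mul_left _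
  obtain ⟨Bd, hBd⟩ : ∃ Bd : Finset (degreeLT K (n / 2)),
      Bd = Finset.univ.filter (fun v' : degreeLT K (n / 2) => tb K n + (v' : K[X]) ∈ Exc) :=
    ⟨_, rfl⟩
  have hBdm : ∀ v', v' ∈ Bd ↔ tb K n + (v' : K[X]) ∈ Exc := by
    intro v'
    rw [hBd, Finset.mem_filter]
    simp
  have hbad : (Bd.card : ℝ) ≤ ε / 2 * (Fintype.card K : ℝ) ^ (n / 2) := by
    refine le_trans ?_ hE2
    have hEf : Exc.Finite := (Fb_finite n).subset hE1
    have h1 : Bd.card ≤ Exc.ncard := by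
      rw [← Set.ncard_coe_finset]
      refine Set.ncard_le_ncard_of_injOn (fun v' : degreeLT K (n / 2) => tb K n + (v' : K[X]))
        (fun v' hv' => (hBdm v').1 hv') ?_ hEf
      intro v _ v' _ hvv
      exact Subtype.ext (add_left_cancel hvv)
    exact_mod_cast h1
  have hall : ∀ v', |T v'| ≤ (Fintype.card K : ℝ) ^ N *
      ((if v' ∈ Bd then 1 else 0) + ε / 2) := by
    intro v'
    split_ifs with h
    · refine (htriv v').trans ?_
      have : (Fintype.card K : ℝ) ^ N * 1 ≤ (Fintype.card K : ℝ) ^ N * (1 + ε / 2) :=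
        mul_le_mul_of_nonneg_left (by linarith) hqN.le
      linarith
    · rw [zero_add]
      exact hgood v' (fun hx => h ((hBdm v').2 hx))
  have hsum : |∑ v', T v'| ≤ ε * (Fintype.card K : ℝ) ^ n := by
    refine (Finset.abs_sum_le_sum_abs _ _).trans ?_
    refine (Finset.sum_le_sum (fun v' _ => hall v')).trans ?_
    rw [← Finset.mul_sum, Finset.sum_add_distrib, Finset.sum_boole, Finset.sum_const,
      Finset.card_univ, card_deg, nsmul_eq_mul, Finset.filter_mem_eq_inter, Finset.univ_inter]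
    push_cast
    have hnn : (Fintype.card K : ℝ) ^ n =
        (Fintype.card K : ℝ) ^ N * (Fintype.card K : ℝ) ^ (n / 2) := by
      rw [← pow_add]
      congr 1
      omega
    rw [hnn]
    have h9 : (Bd.card : ℝ) + (Fintype.card K : ℝ) ^ (n / 2) * (ε / 2) ≤
        ε * (Fintype.card K : ℝ) ^ (n / 2) := by linarith
    calc (Fintype.card K : ℝ) ^ N * ((Bd.card : ℝ) + (Fintype.card K : ℝ) ^ (n / 2) * (ε / 2))
        ≤ (Fintype.card K : ℝ) ^ N * (ε * (Fintype.card K : ℝ) ^ (n / 2)) :=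
          mul_le_mul_of_nonneg_left h9 hqN.le
      _ = _ := by ring
  rw [hT] at hsum
  exact hsum

end Pool.Agent.H154.Par
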